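import Pool.Agent.H31.UF.Sub4

set_option autoImplicit false

/-!
# Borel colourings which are unfriendly at all vertices of degree at most four
-/

namespace Pool.Agent.Results.MP_99e1f5_lc.DegreeAtMostFour

/-- Every Borel graph `G` of bounded degree on a standard Borel space has a Borel colouring with two
colours in which, for every vertex `x`, twice the number of the neighbours of `x` of the other colour
is at least `min (deg x) 4`: the colouring is unfriendly at every vertex of degree at most four, and
every vertex of larger degree has at least two neighbours of the other colour. -/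
theorem result : ∀ (X : Type) [MeasurableSpace X] [StandardBorelSpace X] (G : SimpleGraph X)
    (Δ : ℕ), MeasurableSet {p : X × X | G.Adj p.1 p.2} →
    (∀ x, (G.neighborSet x).encard ≤ Δ) →
    ∃ c : X → Bool, Measurable c ∧
      ∀ x, min (G.neighborSet x).ncard 4 ≤ 2 * {y | G.Adj x y ∧ c y ≠ c x}.ncard := by
  intro X _ _ G Δ hB h
  exact H31.UF.Sub4.sub G hB Δ h

end Pool.Agent.Results.MP_99e1f5_lc.DegreeAtMostFour
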